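import Pool.Agent.N641.VB.Stm

/-!
# Project VB (helper641), part LIFT: atomic lift of a countable Boolean algebra
-/

set_option autoImplicit false

namespace Pool.Agent.N279.VB

open Pool.Agent.N641.VB

section

variable {ι : Type} {B : Type} [BooleanAlgebra B] (r : B → Set ι)

/-- a representation of `B` by infinite sets -/
structure Rep : Prop where
  sup : ∀ b c, r (b ⊔ c) = r b ∪ r c
  compl : ∀ b, r bᶜ = (r b)ᶜ
  inf : ∀ b, b ≠ ⊥ → (r b).Infinite

/-- `X` is almost `r b` -/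
def Nr (X : Set ι) (b : B) : Prop := {i | ¬ (i ∈ X ↔ i ∈ r b)}.Finite

variable {r}

theorem Rep.bot (h : Rep r) : r ⊥ = ∅ := by
  have h1 : r (⊤ᶜ : B) = (r ⊤)ᶜ := h.compl ⊤
  have h2 : r ((⊥ : B) ⊔ ⊥ᶜ) = r ⊥ ∪ (r ⊥)ᶜ := by rw [h.sup, h.compl]
  rw [sup_compl_eq_top, Set.union_compl_self] at h2
  rw [compl_top, h2, Set.compl_univ] at h1
  exact h1

theorem Rep.inter (h : Rep r) (b c : B) : r (b ⊓ c) = r b ∩ r c := by
  have h1 : b ⊓ c = (bᶜ ⊔ cᶜ)ᶜ := by rw [compl_sup, compl_compl, compl_compl]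
  rw [h1, h.compl, h.sup, h.compl, h.compl, Set.compl_union, compl_compl, compl_compl]

theorem Rep.sdiff (h : Rep r) (b c : B) : r (b \ c) = r b \ r c := by
  rw [_root_.sdiff_eq, h.inter, h.compl, Set.sdiff_eq]

theorem Nr.sup (h : Rep r) {X Y : Set ι} {b c : B} (hX : Nr r X b) (hY : Nr r Y c) :
    Nr r (X ∪ Y) (b ⊔ c) := by
  refine (Set.Finite.union hX hY).subset ?_
  intro i hi
  simp only [Set.mem_ofPred_eq, Set.mem_union, h.sup] at hi ⊢
  tauto

theorem Nr.inter (h : Rep r) {X Y : Set ι} {b c : B} (hX : Nr r X b) (hY : Nr r Y c) :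
    Nr r (X ∩ Y) (b ⊓ c) := by
  refine (Set.Finite.union hX hY).subset ?_
  intro i hi
  simp only [Set.mem_ofPred_eq, Set.mem_union, Set.mem_inter_iff, h.inter] at hi ⊢
  tauto

theorem Nr.compl (h : Rep r) {X : Set ι} {b : B} (hX : Nr r X b) : Nr r Xᶜ bᶜ := by
  refine Set.Finite.subset hX ?_
  intro i hi
  simp only [Set.mem_ofPred_eq, Set.mem_compl_iff, h.compl] at hi ⊢
  tauto

theorem Nr.sdiff (h : Rep r) {X Y : Set ι} {b c : B} (hX : Nr r X b) (hY : Nr r Y c) :
    Nr r (X \ Y) (b \ c) := by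
  have e1 : X \ Y = X ∩ Yᶜ := rfl
  have e2 : b \ c = b ⊓ cᶜ := _root_.sdiff_eq
  rw [e1, e2]
  exact hX.inter h (hY.compl h)

theorem Nr.bot (h : Rep r) {X : Set ι} : Nr r X ⊥ ↔ X.Finite := by
  unfold Nr
  rw [h.bot]
  simp

theorem Nr.eq_bot (h : Rep r) {b : B} (hb : Nr r (∅ : Set ι) b) : b = ⊥ := by
  by_contra h0
  refine h.inf b h0 ?_
  refine Set.Finite.subset hb ?_
  intro i hi
  simp only [Set.mem_ofPred_eq, Set.mem_empty_iff_false, false_iff, not_not]
  exact hi

theorem Nr.unique (h : Rep r) {X : Set ι} {b c : B} (hb : Nr r X b) (hc : Nr r X c) : b = c := by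
  have h1 := hb.sdiff h hc
  have h2 := hc.sdiff h hb
  rw [Set.sdiff_self] at h1 h2
  exact le_antisymm (sdiff_eq_bot_iff.1 (h1.eq_bot h)) (sdiff_eq_bot_iff.1 (h2.eq_bot h))

/-- the algebra of sets -/
def alg (h : Rep r) : BooleanSubalgebra (Set ι) where
  carrier := {X | ∃ b : B, Nr r X b}
  supClosed' := by
    rintro X ⟨b, hb⟩ Y ⟨c, hc⟩
    exact ⟨b ⊔ c, hb.sup h hc⟩
  infClosed' := by
    rintro X ⟨b, hb⟩ Y ⟨c, hc⟩
    exact ⟨b ⊓ c, hb.inter h hc⟩
  compl_mem' := by
    rintro X ⟨b, hb⟩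
    exact ⟨bᶜ, hb.compl h⟩
  bot_mem' := ⟨⊥, (Nr.bot h).2 Set.finite_empty⟩

theorem alg_countable (h : Rep r) [Countable ι] [Countable B] : Countable (alg h) := by
  have hex : ∀ X : alg h, ∃ b, {i | ¬ (i ∈ (X : Set ι) ↔ i ∈ r b)}.Finite := fun X => X.2
  choose f hf using hex
  have : Function.Injective (fun X : alg h => ((f X, (hf X).toFinset) : B × Finset ι)) := by
    intro X Y hXY
    have h1 : f X = f Y := congrArg Prod.fst hXY
    have h2 : (hf X).toFinset = (hf Y).toFinset := congrArg Prod.snd hXY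
    apply Subtype.ext
    ext i
    have h3 : i ∈ (hf X).toFinset ↔ i ∈ (hf Y).toFinset := by rw [h2]
    rw [Set.Finite.mem_toFinset, Set.Finite.mem_toFinset, Set.mem_ofPred_eq, Set.mem_ofPred_eq,
      h1] at h3
    tauto
  exact this.countable

theorem sg_mem (h : Rep r) (i : ι) : ({i} : Set ι) ∈ alg h :=
  ⟨⊥, (Nr.bot h).2 (Set.finite_singleton i)⟩

/-- singletons -/
def sg (h : Rep r) (i : ι) : alg h := ⟨{i}, sg_mem h i⟩

theorem sg_le (h : Rep r) (i : ι) (a : alg h) : sg h i ≤ a ↔ i ∈ (a : Set ι) :=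
  Set.singleton_subset_iff

theorem eq_bot_iff_coe (h : Rep r) (a : alg h) : a = ⊥ ↔ (a : Set ι) = ∅ := by
  constructor
  · rintro rfl
    rfl
  · intro h1
    exact Subtype.ext h1

theorem sg_ne (h : Rep r) (i : ι) : sg h i ≠ ⊥ := by
  rw [Ne, eq_bot_iff_coe]
  exact Set.singleton_ne_empty i

theorem sg_atom (h : Rep r) (i : ι) (d : alg h) (hd : d ≤ sg h i) : d = ⊥ ∨ sg h i \ d = ⊥ := by
  by_cases hi : i ∈ (d : Set ι)
  · right
    exact sdiff_eq_bot_iff.2 ((sg_le h i d).2 hi)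
  · left
    rw [eq_bot_iff_coe, Set.eq_empty_iff_forall_notMem]
    intro x hx
    have : x ∈ ({i} : Set ι) := hd hx
    rw [Set.mem_singleton_iff] at this
    exact hi (this ▸ hx)

theorem dd_iff (h : Rep r) (a : alg h) : DD (fun b : alg h => b = ⊥) 1 a ↔ (a : Set ι).Finite := by
  classical
  constructor
  · rintro ⟨s, hs, ha⟩
    have h1 : ((s.sup id : alg h) : Set ι).Finite := by
      refine Finset.sup_induction (p := fun x : alg h => (x : Set ι).Finite) ?_ ?_ ?_
      · exact Set.finite_empty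
      · intro x hx y hy
        exact Set.Finite.union hx hy
      · intro c hc
        refine Set.Subsingleton.finite ?_
        intro x hx y hy
        have h2 := hs c hc (sg h x) ((sg_le h x c).2 hx)
        rcases h2 with h2 | h2
        · exact absurd h2 (sg_ne h x)
        · have h3 : c ≤ sg h x := sdiff_eq_bot_iff.1 h2
          have h4 : y ∈ ({x} : Set ι) := h3 hy
          exact (Set.mem_singleton_iff.1 h4).symm
    exact h1.subset ha
  · intro ha
    refine ⟨ha.toFinset.image (sg h), ?_, ?_⟩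
    · intro c hc d hd
      obtain ⟨i, -, rfl⟩ := Finset.mem_image.1 hc
      exact sg_atom h i d hd
    · intro i hi
      have h1 : sg h i ≤ (ha.toFinset.image (sg h)).sup id :=
        Finset.le_sup (f := id) (Finset.mem_image_of_mem _ (ha.mem_toFinset.2 hi))
      exact (sg_le h i _).1 h1

end

/-- **LIFT** -/
theorem LIFT (SET : S_SET) : S_LIFT := by
  intro B _ _ _
  obtain ⟨h, hsup, hcompl, hsep⟩ := SET B
  obtain ⟨r, hr⟩ : ∃ r : B → Set (ℕ × ℕ), r = fun b => {p | h p.1 b} := ⟨_, rfl⟩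
  have H : Rep r := by
    refine ⟨fun b c => ?_, fun b => ?_, fun b hb => ?_⟩
    · ext p
      rw [hr]
      exact hsup p.1 b c
    · ext p
      rw [hr]
      exact hcompl p.1 b
    · obtain ⟨n, hn⟩ := hsep b hb
      refine Set.infinite_of_injective_forall_mem (f := fun m : ℕ => (n, m)) ?_ ?_
      · intro m m' hm
        exact congrArg Prod.snd hm
      · intro m
        rw [hr]
        exact hn
  have hex : ∀ a : alg H, ∃ b, Nr r (a : Set (ℕ × ℕ)) b := fun a => a.2
  choose f hpi using hex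
  refine ⟨alg H, inferInstance, f, alg_countable H, ?_, ?_, ?_, ?_, ?_⟩
  · intro b
    have hb : Nr r (r b) b := by
      unfold Nr
      simp
    refine ⟨⟨r b, b, hb⟩, ?_⟩
    exact (hpi ⟨r b, b, hb⟩).unique H hb
  · intro x y
    exact (hpi (x ⊔ y)).unique H ((hpi x).sup H (hpi y))
  · intro x y
    exact (hpi (x \ y)).unique H ((hpi x).sdiff H (hpi y))
  · intro a
    rw [dd_iff]
    constructor
    · intro ha
      exact (hpi a).unique H ((Nr.bot H).2 ha)
    · intro ha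
      have h1 := hpi a
      rw [ha] at h1
      exact (Nr.bot H).1 h1
  · intro a ha
    rw [Ne, eq_bot_iff_coe, ← Ne, ← Set.nonempty_iff_ne_empty] at ha
    obtain ⟨i, hi⟩ := ha
    exact ⟨sg H i, (sg_le H i a).2 hi, sg_ne H i, fun d hd => sg_atom H i d hd⟩

end Pool.Agent.N279.VB
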